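import Pool.Agent.Q6.TY.Stm

/-!
# Project TY, job TY-TORP: the primes `tor p V`
-/

set_option autoImplicit false

namespace Pool.Agent.Q190.TY

open MvPolynomial Pool.Agent.Q6.TY

/-- the value of a monomial -/
noncomputable def pw {t : ℕ} (p : Fin t → ℂ) (u : Fin t →₀ ℕ) : ℂ := ∏ i, p i ^ u i

theorem pw_ne {t : ℕ} {p : Fin t → ℂ} (hp : ∀ i, p i ≠ 0) (u : Fin t →₀ ℕ) : pw p u ≠ 0 :=
  Finset.prod_ne_zero_iff.2 fun i _ => pow_ne_zero _ (hp i)

/-- the exponent vector -/
def ev {t : ℕ} (u : Fin t →₀ ℕ) : Fin t → ℚ := fun i => (u i : ℚ)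

theorem ev_inj {t : ℕ} {u v : Fin t →₀ ℕ} (h : ev u = ev v) : u = v := by
  ext i
  have h1 : (u i : ℚ) = v i := congrFun h i
  exact_mod_cast h1

theorem dif_eq {t : ℕ} (u v : Fin t →₀ ℕ) : dif u v = ev u - ev v := by
  funext i
  simp [dif, ev]

theorem prod_single {G : Type*} [AddCommMonoid G] {ι : Type*} (s : Finset ι) (a : ι → G)
    (b : ι → ℂ) : ∏ i ∈ s, AddMonoidAlgebra.single (a i) (b i) =
      AddMonoidAlgebra.single (∑ i ∈ s, a i) (∏ i ∈ s, b i) := by
  classical
  induction s using Finset.induction_on with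
  | empty => simp [AddMonoidAlgebra.one_def]
  | insert i s hi ih =>
    rw [Finset.prod_insert hi, Finset.sum_insert hi, Finset.prod_insert hi, ih,
      AddMonoidAlgebra.single_mul_single]

theorem ev_sum {t : ℕ} (u : Fin t →₀ ℕ) :
    ev u = ∑ i, u i • (Pi.single i (1 : ℚ) : Fin t → ℚ) := by
  funext j
  rw [Finset.sum_apply]
  simp [Pi.single_apply, ev]

theorem torHom_monomial {t : ℕ} (p : Fin t → ℂ) (V : Submodule ℚ (Fin t → ℚ)) (u : Fin t →₀ ℕ)
    (c : ℤ) : torHom p V (monomial u c) =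
      AddMonoidAlgebra.single (V.mkQ (ev u)) ((c : ℂ) * pw p u) := by
  have h1 : torHom p V (monomial u c) =
      algebraMap ℤ _ c * u.prod fun i k => (AddMonoidAlgebra.single (V.mkQ (Pi.single i 1)) (p i)) ^ k :=
    aeval_monomial _ _ _
  rw [h1, Finsupp.prod_fintype _ _ (fun i => by simp)]
  have h2 : ∀ i, (AddMonoidAlgebra.single (V.mkQ (Pi.single i 1)) (p i)) ^ (u i) =
      AddMonoidAlgebra.single (u i • V.mkQ (Pi.single i 1)) (p i ^ u i) := fun i =>
    AddMonoidAlgebra.single_pow _ _ _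
  simp only [h2]
  rw [prod_single]
  have h3 : (algebraMap ℤ (AddMonoidAlgebra ℂ ((Fin t → ℚ) ⧸ V)) c) =
      AddMonoidAlgebra.single 0 (c : ℂ) := by
    have : (algebraMap ℤ (AddMonoidAlgebra ℂ ((Fin t → ℚ) ⧸ V)) c) =
      AddMonoidAlgebra.singleZeroRingHom (c : ℂ) := by
      rw [map_intCast, eq_intCast]
    rw [this]
    rfl
  rw [h3, AddMonoidAlgebra.single_mul_single, zero_add, ev_sum, map_sum]
  simp only [map_nsmul]
  rfl

theorem evh_monomial {t : ℕ} (p : Fin t → ℂ) (u : Fin t →₀ ℕ) (c : ℤ) :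
    evh p (monomial u c) = (c : ℂ) * pw p u := by
  have h1 : evh p (monomial u c) = algebraMap ℤ _ c * u.prod fun i k => p i ^ k :=
    aeval_monomial _ _ _
  rw [h1, Finsupp.prod_fintype _ _ (fun i => by simp)]
  rfl

theorem mem_tor {t : ℕ} {p : Fin t → ℂ} {V : Submodule ℚ (Fin t → ℚ)} {f : P t} :
    f ∈ tor p V ↔ torHom p V f = 0 := RingHom.mem_ker

theorem mem_mx {t : ℕ} {p : Fin t → ℂ} {f : P t} : f ∈ mx p ↔ evh p f = 0 := RingHom.mem_ker

theorem torHom_sum {t : ℕ} (p : Fin t → ℂ) (V : Submodule ℚ (Fin t → ℚ)) (f : P t) :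
    torHom p V f = ∑ u ∈ f.support,
      AddMonoidAlgebra.single (V.mkQ (ev u)) (((coeff u f : ℤ) : ℂ) * pw p u) := by
  conv_lhs => rw [f.as_sum]
  rw [map_sum]
  exact Finset.sum_congr rfl fun u _ => torHom_monomial p V u _

theorem evh_sum {t : ℕ} (p : Fin t → ℂ) (f : P t) :
    evh p f = ∑ u ∈ f.support, ((coeff u f : ℤ) : ℂ) * pw p u := by
  conv_lhs => rw [f.as_sum]
  rw [map_sum]
  exact Finset.sum_congr rfl fun u _ => evh_monomial p u _

theorem task_TORP : Pool.Agent.Q6.TY.S_TORP := by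
  intro t p hp
  have h1 : ∀ V, (tor p V).IsPrime := fun V => RingHom.ker_isPrime _
  have h5 : ∀ V V', V ≤ V' → tor p V ≤ tor p V' := by
    intro V V' h f hf
    rw [mem_tor] at hf ⊢
    let g : ((Fin t → ℚ) ⧸ V) →+ ((Fin t → ℚ) ⧸ V') := (Submodule.factor h).toAddMonoidHom
    have h2 : torHom p V' = (AddMonoidAlgebra.mapDomainRingHom ℂ g).comp (torHom p V) := by
      apply RingHom.ext
      intro f
      rw [RingHom.comp_apply, torHom_sum, torHom_sum, map_sum]
      refine Finset.sum_congr rfl fun u _ => ?_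
      have : AddMonoidAlgebra.mapDomainRingHom ℂ g
          (AddMonoidAlgebra.single (V.mkQ (ev u)) (((coeff u f : ℤ) : ℂ) * pw p u)) =
          AddMonoidAlgebra.single (g (V.mkQ (ev u))) (((coeff u f : ℤ) : ℂ) * pw p u) :=
        AddMonoidAlgebra.mapDomain_single
      rw [this]
      rfl
    rw [h2, RingHom.comp_apply, hf, map_zero]
  have h4 : tor p ⊤ = mx p := by
    ext f
    rw [mem_tor, mem_mx, torHom_sum, evh_sum]
    have h2 : ∀ u : Fin t →₀ ℕ, (⊤ : Submodule ℚ (Fin t → ℚ)).mkQ (ev u) = 0 := fun u => by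
      rw [Submodule.mkQ_apply, Submodule.Quotient.mk_eq_zero]
      exact Submodule.mem_top
    simp only [h2]
    have h3 : ∑ u ∈ f.support, AddMonoidAlgebra.single (0 : (Fin t → ℚ) ⧸ (⊤ : Submodule ℚ (Fin t → ℚ)))
        (((coeff u f : ℤ) : ℂ) * pw p u) =
        AddMonoidAlgebra.single 0 (∑ u ∈ f.support, ((coeff u f : ℤ) : ℂ) * pw p u) :=
      (map_sum (AddMonoidAlgebra.singleAddHom
        (0 : (Fin t → ℚ) ⧸ (⊤ : Submodule ℚ (Fin t → ℚ)))) _ _).symm
    rw [h3, AddMonoidAlgebra.single_eq_zero]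
  refine ⟨h1, fun V => ?_, ?_, h4, h5, ?_, ?_, ?_, ?_⟩
  · rw [← h4]
    exact h5 V ⊤ le_top
  · rw [eq_bot_iff]
    intro f hf
    rw [mem_tor, torHom_sum] at hf
    rw [Ideal.mem_bot]
    by_contra hne
    obtain ⟨v, hv⟩ := Finset.nonempty_iff_ne_empty.2 (fun h => hne (support_eq_empty.1 h))
    have h2 := congrArg (fun x => AddMonoidAlgebra.coeff x
      ((⊥ : Submodule ℚ (Fin t → ℚ)).mkQ (ev v))) hf
    simp only [AddMonoidAlgebra.coeff_sum, AddMonoidAlgebra.coeff_single,
      AddMonoidAlgebra.coeff_zero, Finsupp.coe_zero, Pi.zero_apply] at h2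
    rw [Finsupp.finsetSum_apply, Finset.sum_eq_single v] at h2
    · rw [Finsupp.single_eq_same] at h2
      rcases mul_eq_zero.1 h2 with h3 | h3
      · have : coeff v f = 0 := by exact_mod_cast h3
        exact (mem_support_iff.1 hv) this
      · exact pw_ne hp v h3
    · intro u _ huv
      rw [Finsupp.single_eq_of_ne]
      intro h
      apply huv
      have h4 : ev u - ev v ∈ (⊥ : Submodule ℚ (Fin t → ℚ)) := by
        rw [← Submodule.Quotient.eq]
        first | exact h | exact h.symm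
      rw [Submodule.mem_bot, sub_eq_zero] at h4
      exact ev_inj h4
    · intro h
      exact absurd hv h
  · intro V u v σ huv hm
    rw [mem_mx, map_sub, evh_monomial, evh_monomial] at hm
    rw [mem_tor, map_sub, torHom_monomial, torHom_monomial]
    have h2 : V.mkQ (ev u) = V.mkQ (ev v) := by
      rw [Submodule.mkQ_apply, Submodule.mkQ_apply, Submodule.Quotient.eq, ← dif_eq]
      exact huv
    rw [h2, sub_eq_zero.1 hm, sub_self]
  · intro V u v σ huv hm
    rw [mem_tor, map_sub, torHom_monomial, torHom_monomial, sub_eq_zero] at hm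
    rcases AddMonoidAlgebra.single_inj.1 hm with ⟨h2, _⟩ | ⟨h2, _⟩
    · apply huv
      rw [dif_eq, ← Submodule.Quotient.eq]
      exact h2
    · have := pw_ne hp u
      simp only [Int.cast_one, one_mul] at h2
      exact this h2
  · intro V z hz
    rw [mem_tor, ← monomial_zero', torHom_monomial, AddMonoidAlgebra.single_eq_zero] at hz
    rcases mul_eq_zero.1 hz with h3 | h3
    · exact_mod_cast h3
    · exact absurd h3 (pw_ne hp 0)
  · intro z hz
    rw [mem_mx, ← monomial_zero', evh_monomial] at hz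
    rcases mul_eq_zero.1 hz with h3 | h3
    · exact_mod_cast h3
    · exact absurd h3 (pw_ne hp 0)

end Pool.Agent.Q190.TY
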