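import Pool.Agent.Q6.TY.Stm

/-!
# Project TY, job TY-BND: pigeonhole
-/

set_option autoImplicit false

namespace Pool.Agent.Q190.TY

open MvPolynomial Pool.Agent.Q6.TY

/-- the arcs -/
theorem arcs {ε : ℝ} (hε : 0 < ε) : ∃ g : UnitAddCircle → Fin (⌊1 / ε⌋₊ + 1),
    ∀ x y, g x = g y → ‖x - y‖ < ε := by
  set M : ℕ := ⌊1 / ε⌋₊ + 1 with hM
  have hM0 : (0 : ℝ) < M := by positivity
  have hMε : 1 / (M : ℝ) < ε := by
    rw [div_lt_iff₀ hM0]
    have h1 : 1 / ε < M := by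
      rw [hM]
      push_cast
      exact Nat.lt_floor_add_one _
    rw [div_lt_iff₀ hε] at h1
    linarith
  have : Fact ((0 : ℝ) < 1) := ⟨one_pos⟩
  -- representatives in `[0, 1)`
  let r : UnitAddCircle → ℝ := fun x => (AddCircle.equivIco (1 : ℝ) 0 x : ℝ)
  have hr0 : ∀ x, 0 ≤ r x := fun x => (AddCircle.equivIco (1 : ℝ) 0 x).2.1
  have hr1 : ∀ x, r x < 1 := fun x => by
    have := (AddCircle.equivIco (1 : ℝ) 0 x).2.2
    simpa using this
  have hr : ∀ x, ((r x : ℝ) : UnitAddCircle) = x := fun x => AddCircle.coe_equivIco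
  have hfl : ∀ x, ⌊r x * M⌋₊ < M := by
    intro x
    rw [Nat.floor_lt (by have := hr0 x; positivity)]
    have := hr1 x
    nlinarith
  refine ⟨fun x => ⟨⌊r x * M⌋₊, hfl x⟩, fun x y hxy => ?_⟩
  have h1 : ⌊r x * M⌋₊ = ⌊r y * M⌋₊ := congrArg Fin.val hxy
  have hx1 := Nat.floor_le (show 0 ≤ r x * M by have := hr0 x; positivity)
  have hx2 := Nat.lt_floor_add_one (r x * M)
  have hy1 := Nat.floor_le (show 0 ≤ r y * M by have := hr0 y; positivity)
  have hy2 := Nat.lt_floor_add_one (r y * M)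
  rw [h1] at hx1 hx2
  have h2 : |r x - r y| * M < 1 := by
    have e : |r x - r y| * M = |(r x - r y) * M| := by rw [abs_mul, abs_of_pos hM0]
    rw [e, abs_lt]
    constructor <;> nlinarith
  have h3 : |r x - r y| < 1 / M := by
    rw [lt_div_iff₀ hM0]
    exact h2
  calc ‖x - y‖ = ‖((r x - r y : ℝ) : UnitAddCircle)‖ := by
        rw [AddCircle.coe_sub, hr, hr]
    _ ≤ |r x - r y| := by
        rw [UnitAddCircle.norm_eq]
        exact (round_le (r x - r y) 0).trans (by simp)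
    _ < ε := h3.trans hMε

theorem task_BND : Pool.Agent.Q6.TY.S_BND := by
  classical
  intro t I n ε hε ι _ cl hcl N hN
  obtain ⟨A, hA, hkill, hapart⟩ := hN
  obtain ⟨g, hg⟩ := arcs hε
  -- representatives of the classes
  let u : ι → Fin t →₀ ℕ := fun c => if h : ∃ u : Fin t →₀ ℕ, u.degree ≤ n ∧ cl u = c then h.choose else 0
  have hu : ∀ v : Fin t →₀ ℕ, v.degree ≤ n → (u (cl v)).degree ≤ n ∧ cl (u (cl v)) = cl v := by
    intro v hv
    have h : ∃ w : Fin t →₀ ℕ, w.degree ≤ n ∧ cl w = cl v := ⟨v, hv, rfl⟩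
    have e : u (cl v) = h.choose := by simp only [u]; rw [dif_pos h]
    rw [e]
    exact h.choose_spec
  have hval : ∀ φ ∈ A, ∀ v : Fin t →₀ ℕ, v.degree ≤ n → φ (monomial v 1) = φ (monomial (u (cl v)) 1) := by
    intro φ hφ v hv
    obtain ⟨h1, h2⟩ := hu v hv
    have h3 := hkill φ hφ _ (hcl v (u (cl v)) hv h1 h2.symm)
    rw [map_sub, sub_eq_zero] at h3
    exact h3
  let Φ : (P t →+ UnitAddCircle) → (ι → Fin (⌊1 / ε⌋₊ + 1)) := fun φ c => g (φ (monomial (u c) 1))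
  have hinj : Set.InjOn Φ A := by
    intro φ hφ ψ hψ h
    by_contra hne
    obtain ⟨v, hv, hap⟩ := hapart φ hφ ψ hψ hne
    rw [hval φ hφ v hv, hval ψ hψ v hv] at hap
    have h1 := hg _ _ (congrFun h (cl v))
    linarith
  have hcard := Finset.card_le_card_of_injOn Φ (t := Finset.univ) (fun _ _ => Finset.mem_univ _) hinj
  rw [hA] at hcard
  simpa using hcard

end Pool.Agent.Q190.TY
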