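import Pool.Agent.Q6.TY.Stm

/-!
# Project TY, job TY-DIM: ranks
-/

set_option autoImplicit false

namespace Pool.Agent.Q190.TY

open MvPolynomial Pool.Agent.Q6.TY

instance md_finite {t : ℕ} (I : Ideal (P t)) (n : ℕ) : Module.Finite ℤ (Md I n) := by
  unfold Md
  infer_instance

theorem mem_Md {t : ℕ} {I : Ideal (P t)} {n : ℕ} {x : P t ⧸ I} :
    x ∈ Md I n ↔ ∃ g : P t, g.totalDegree ≤ n ∧ Ideal.Quotient.mk I g = x := by
  unfold Md
  rw [Submodule.mem_map]
  constructor
  · rintro ⟨g, hg, rfl⟩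
    exact ⟨g, (mem_restrictTotalDegree _ _ _).1 hg, rfl⟩
  · rintro ⟨g, hg, rfl⟩
    exact ⟨g, (mem_restrictTotalDegree _ _ _).2 hg, rfl⟩

theorem card_deg (t n : ℕ) :
    Nat.card {u : Fin t →₀ ℕ | (u.sum fun _ e => e) ≤ n} ≤ (n + t).choose t := by
  classical
  let T := {x // x ∈ (Finset.univ : Finset (Fin (t + 1))).finsuppAntidiag n}
  have hsum : ∀ u : Fin t →₀ ℕ, (u.sum fun _ e => e) = ∑ i, u i := fun u =>
    Finsupp.sum_fintype _ _ (fun _ => rfl)
  let g : {u : Fin t →₀ ℕ | (u.sum fun _ e => e) ≤ n} → T := fun u =>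
    ⟨Finsupp.cons (n - (u.1.sum fun _ e => e)) u.1, by
      rw [Finset.mem_finsuppAntidiag]
      refine ⟨?_, Finset.subset_univ _⟩
      rw [Fin.sum_univ_succ]
      simp only [Finsupp.cons_zero, Finsupp.cons_succ]
      rw [← hsum]
      have := u.2
      simp only [Set.mem_ofPred_eq] at this
      omega⟩
  have hg : Function.Injective g := by
    intro u v h
    have h1 : Finsupp.cons (n - (u.1.sum fun _ e => e)) u.1 = Finsupp.cons (n - (v.1.sum fun _ e => e)) v.1 :=
      congrArg Subtype.val h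
    apply Subtype.ext
    have h2 := congrArg Finsupp.tail h1
    rwa [Finsupp.tail_cons, Finsupp.tail_cons] at h2
  have h1 := Nat.card_le_card_of_injective g hg
  refine h1.trans (le_of_eq ?_)
  rw [Nat.card_eq_fintype_card, Fintype.card_coe, Finset.card_finsuppAntidiag_nat_eq_choose,
    Finset.card_univ, Fintype.card_fin]
  have e : t + 1 + n - 1 = n + t := by omega
  rw [e]
  exact Nat.choose_symm_add

theorem map_factor {t : ℕ} {I J : Ideal (P t)} (h : I ≤ J) (n : ℕ) :
    (Md I n).map (Ideal.Quotient.factorₐ ℤ h).toLinearMap = Md J n := by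
  ext x
  rw [Submodule.mem_map, mem_Md]
  constructor
  · rintro ⟨y, hy, rfl⟩
    obtain ⟨g, hg, rfl⟩ := mem_Md.1 hy
    exact ⟨g, hg, rfl⟩
  · rintro ⟨g, hg, rfl⟩
    exact ⟨Ideal.Quotient.mk I g, mem_Md.2 ⟨g, hg, rfl⟩, rfl⟩

/-- rank and nullity for the image of a submodule -/
theorem rank_null {R M N : Type*} [CommRing R] [IsDomain R] [AddCommGroup M] [Module R M]
    [AddCommGroup N] [Module R N]
    (g : M →ₗ[R] N) (A : Submodule R M) [Module.Finite R A] :
    Module.finrank R (A.map g) + Module.finrank R (A ⊓ LinearMap.ker g : Submodule R M) =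
      Module.finrank R A := by
  have h1 := (LinearMap.ker (g.domRestrict A)).finrank_quotient_add_finrank
  rw [LinearEquiv.finrank_eq (g.domRestrict A).quotKerEquivRange] at h1
  have h2 : LinearMap.range (g.domRestrict A) = A.map g := by
    rw [LinearMap.range_domRestrict]
  have h3 : Module.finrank R (LinearMap.ker (g.domRestrict A)) =
      Module.finrank R (A ⊓ LinearMap.ker g : Submodule R M) := by
    have h4 : (LinearMap.ker (g.domRestrict A)).map A.subtype = A ⊓ LinearMap.ker g := by
      ext x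
      rw [Submodule.mem_map]
      constructor
      · rintro ⟨y, hy, rfl⟩
        exact ⟨y.2, LinearMap.mem_ker.2 (LinearMap.mem_ker.1 hy)⟩
      · rintro ⟨hx, hx'⟩
        exact ⟨⟨x, hx⟩, LinearMap.mem_ker.2 (LinearMap.mem_ker.1 hx'), rfl⟩
    rw [← h4]
    exact (Submodule.finrank_map_subtype_eq A _).symm
  rw [← h1, h2, h3]

theorem task_DIM : Pool.Agent.Q6.TY.S_DIM := by
  refine ⟨?_, ?_, ?_, ?_, ?_⟩
  · intro t q q' f d hq hqq' hfd hfq hfq' m
    have := hq
    have h1 := rank_null (Ideal.Quotient.factorₐ ℤ hqq').toLinearMap (Md q (m + d))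
    rw [map_factor hqq'] at h1
    unfold k
    rw [← h1]
    apply Nat.add_le_add_left
    let μ : (P t ⧸ q) →ₗ[ℤ] (P t ⧸ q) := LinearMap.mulLeft ℤ (Ideal.Quotient.mk q f)
    have hμ : Function.Injective μ := by
      intro b c hbc
      have h1 : Ideal.Quotient.mk q f ≠ 0 := fun h => hfq (Ideal.Quotient.eq_zero_iff_mem.1 h)
      exact mul_left_cancel₀ h1 hbc
    have h2 : (Md q m).map μ ≤ Md q (m + d) ⊓ LinearMap.ker (Ideal.Quotient.factorₐ ℤ hqq').toLinearMap := by
      rintro x ⟨y, hy, rfl⟩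
      obtain ⟨g, hg, rfl⟩ := mem_Md.1 hy
      have e : μ (Ideal.Quotient.mk q g) = Ideal.Quotient.mk q (f * g) := rfl
      rw [e]
      refine ⟨mem_Md.2 ⟨f * g, ?_, rfl⟩, ?_⟩
      · refine (totalDegree_mul f g).trans ?_
        omega
      · apply LinearMap.mem_ker.2
        show Ideal.Quotient.mk q' (f * g) = 0
        exact Ideal.Quotient.eq_zero_iff_mem.2 (q'.mul_mem_right _ hfq')
    have h3 : Module.finrank ℤ ((Md q m).map μ) = Module.finrank ℤ (Md q m) :=
      (LinearEquiv.finrank_eq (Submodule.equivMapOfInjective μ hμ (Md q m))).symm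
    have : Module.Finite ℤ (Md q (m + d) ⊓ LinearMap.ker (Ideal.Quotient.factorₐ ℤ hqq').toLinearMap :
        Submodule ℤ (P t ⧸ q)) := Module.Finite.of_injective
          (Submodule.inclusion inf_le_left) (Submodule.inclusion_injective _)
    rw [← h3]
    exact Submodule.finrank_mono h2
  · intro t n
    have h1 : k (⊥ : Ideal (P t)) n ≤ Module.finrank ℤ (restrictTotalDegree (Fin t) ℤ n) := by
      unfold k Md
      exact Submodule.finrank_map_le _ _
    refine h1.trans ?_
    unfold restrictTotalDegree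
    rw [Module.finrank_eq_nat_card_basis (basisRestrictSupport ℤ _)]
    exact card_deg t n
  · intro t I n n' h
    unfold k
    apply Submodule.finrank_mono
    intro x hx
    obtain ⟨g, hg, rfl⟩ := mem_Md.1 hx
    exact mem_Md.2 ⟨g, hg.trans h, rfl⟩
  · intro t I J n h
    unfold k
    rw [← map_factor h]
    exact Submodule.finrank_map_le _ _
  · intro t I n h
    unfold k
    let μ : ℤ →ₗ[ℤ] Md I n := LinearMap.toSpanSingleton ℤ _ ⟨1, mem_Md.2 ⟨1, by simp, map_one _⟩⟩
    have hμ : Function.Injective μ := by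
      rw [injective_iff_map_eq_zero]
      intro z hz
      have h1 : z • (1 : P t ⧸ I) = 0 := congrArg Subtype.val hz
      apply h z
      rw [← Ideal.Quotient.eq_zero_iff_mem, ← h1]
      have : (C z : P t) = z • (1 : P t) := by
        rw [zsmul_eq_mul, mul_one]
        exact map_intCast C z
      rw [this, map_zsmul, map_one]
    have h1 := LinearMap.finrank_le_finrank_of_injective hμ
    rw [Module.finrank_self] at h1
    exact h1

end Pool.Agent.Q190.TY
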