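import Pool.Agent.Q6.TY.Stm

/-!
# Project TY, job TY-GRO: growth along a chain of primes
-/

set_option autoImplicit false

namespace Pool.Agent.Q190.TY.GRO

open MvPolynomial Pool.Agent.Q6.TY

theorem Sm_mono {F G : ℕ → ℝ} (h : ∀ n, F n ≤ G n) (N : ℕ) : Sm F N ≤ Sm G N :=
  Finset.sum_le_sum fun n _ => h n

theorem Sm_shift {G : ℕ → ℝ} (hG : ∀ n, 0 ≤ G n) (c N : ℕ) :
    Sm (fun n => G (n + c)) N ≤ Sm G (N + c) := by
  unfold Sm
  have h1 : ∑ n ∈ Finset.range (N + 1), G (n + c) =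
      ∑ n ∈ (Finset.range (N + 1)).image (fun n => n + c), G n := by
    rw [Finset.sum_image]
    intro a _ b _ h
    exact Nat.add_right_cancel h
  rw [h1]
  apply Finset.sum_le_sum_of_subset_of_nonneg
  · intro n hn
    rw [Finset.mem_image] at hn
    obtain ⟨a, ha, rfl⟩ := hn
    rw [Finset.mem_range] at ha ⊢
    omega
  · intro n _ _
    exact hG n

theorem Sm_mono_idx {G : ℕ → ℝ} (hG : ∀ n, 0 ≤ G n) {M N : ℕ} (h : M ≤ N) :
    Sm G M ≤ Sm G N := by
  unfold Sm
  apply Finset.sum_le_sum_of_subset_of_nonneg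
  · intro n hn
    rw [Finset.mem_range] at hn ⊢
    omega
  · intro n _ _
    exact hG n

theorem Sm_pow (s N : ℕ) : Sm (fun n => ((n : ℝ) + 1) ^ s) N ≤ ((N : ℝ) + 1) ^ (s + 1) := by
  unfold Sm
  calc ∑ n ∈ Finset.range (N + 1), ((n : ℝ) + 1) ^ s
      ≤ ∑ n ∈ Finset.range (N + 1), ((N : ℝ) + 1) ^ s := by
        apply Finset.sum_le_sum
        intro n hn
        have h1 : n ≤ N := Nat.lt_succ_iff.1 (Finset.mem_range.1 hn)
        have h2 : (n : ℝ) ≤ N := by exact_mod_cast h1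
        exact pow_le_pow_left₀ (by positivity) (by linarith) s
    _ = ((N : ℝ) + 1) ^ (s + 1) := by
        rw [Finset.sum_const, Finset.card_range, nsmul_eq_mul, pow_succ]
        push_cast
        ring

theorem task_GRO : Pool.Agent.Q6.TY.S_ASTEP → Pool.Agent.Q6.TY.S_DIM → Pool.Agent.Q6.TY.S_GRO := by
  intro hA hD t F m s q hch
  obtain ⟨hD1, -, -, hD4, -⟩ := hD
  induction hch with
  | refl =>
    refine ⟨1, one_pos, fun ε₀ _ _ K _ => ⟨0, le_rfl, fun N => ?_⟩⟩
    simp
  | step s q q' f hq hle hf hl hfq hfq' h ih =>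
    obtain ⟨ε₁, hε₁, ih⟩ := ih
    obtain ⟨ε₂, hε₂, hA⟩ := hA t q q' f hq hle hl hfq hfq'
    refine ⟨min ε₁ ε₂, lt_min hε₁ hε₂, fun ε₀ hε₀ hle₀ K hK => ?_⟩
    obtain ⟨C, hC, ih⟩ := ih ε₀ hε₀ (hle₀.trans (min_le_left _ _)) K hK
    obtain ⟨C', hA⟩ := hA ε₀ hε₀ (hle₀.trans (min_le_right _ _)) K hK
    refine ⟨C + |C'|, by positivity, fun N => ?_⟩
    set L : ℝ := Real.log (1 + 2 * 3 ^ K) / K with hL
    have hL0 : 0 ≤ L := by
      apply div_nonneg
      · apply Real.log_nonneg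
        have : (0 : ℝ) < 3 ^ K := by positivity
        linarith
      · exact Nat.cast_nonneg K
    have hkk : ∀ n, Sm (fun n => (k q' n : ℝ)) n ≤ (k q n : ℝ) := by
      intro n
      induction n with
      | zero =>
        unfold Sm
        rw [Finset.sum_range_succ, Finset.sum_range_zero, zero_add]
        have := hD4 t q q' 0 hle
        exact_mod_cast this
      | succ n ihn =>
        unfold Sm at ihn ⊢
        rw [Finset.sum_range_succ]
        have h1 := hD1 t q q' f 1 hq hle hl.1 hfq hfq' n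
        have h2 : (k q' (n + 1) : ℝ) + (k q n : ℝ) ≤ (k q (n + 1) : ℝ) := by exact_mod_cast h1
        linarith
    rw [Function.iterate_succ_apply']
    have e1 := Sm_mono ih N
    refine e1.trans ?_
    have e2 : Sm (fun n => Real.log (Sp q' (n + s * K) ε₀) +
        s * L * Sm (fun n => (k q' n : ℝ)) (n + s * K) + C * ((n : ℝ) + 1) ^ s) N =
        Sm (fun n => Real.log (Sp q' (n + s * K) ε₀)) N +
        s * L * Sm (fun n => Sm (fun n => (k q' n : ℝ)) (n + s * K)) N +
        C * Sm (fun n => ((n : ℝ) + 1) ^ s) N := by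
      unfold Sm
      rw [Finset.sum_add_distrib, Finset.sum_add_distrib, Finset.mul_sum, Finset.mul_sum]
    rw [e2]
    have e3 : Sm (fun n => Real.log (Sp q' (n + s * K) ε₀)) N ≤
        Sm (fun n => Real.log (Sp q' n ε₀)) (N + s * K) :=
      Sm_shift (G := fun n => Real.log (Sp q' n ε₀)) (fun n => Real.log_natCast_nonneg _) _ _
    have e4 := hA (N + s * K)
    have e5 : Sm (fun n => Sm (fun n => (k q' n : ℝ)) (n + s * K)) N ≤
        Sm (fun n => (k q n : ℝ)) (N + s * K + K) := by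
      refine (Sm_mono (fun n => hkk (n + s * K)) N).trans ?_
      refine (Sm_shift (G := fun n => (k q n : ℝ)) (fun n => Nat.cast_nonneg _) (s * K) N).trans ?_
      exact Sm_mono_idx (fun n => Nat.cast_nonneg _) (Nat.le_add_right _ _)
    have e6 := Sm_pow s N
    have e7 : N + s * K + K = N + (s + 1) * K := by ring
    rw [e7] at e4 e5
    have e8 : s * L * Sm (fun n => Sm (fun n => (k q' n : ℝ)) (n + s * K)) N ≤
        s * L * Sm (fun n => (k q n : ℝ)) (N + (s + 1) * K) :=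
      mul_le_mul_of_nonneg_left e5 (by positivity)
    have e9 : C * Sm (fun n => ((n : ℝ) + 1) ^ s) N ≤ C * ((N : ℝ) + 1) ^ (s + 1) :=
      mul_le_mul_of_nonneg_left e6 hC
    have e10 : C' ≤ |C'| * ((N : ℝ) + 1) ^ (s + 1) := by
      have h1 : (1 : ℝ) ≤ ((N : ℝ) + 1) ^ (s + 1) := by
        apply one_le_pow₀
        have : (0 : ℝ) ≤ N := Nat.cast_nonneg N
        linarith
      calc C' ≤ |C'| := le_abs_self _
        _ = |C'| * 1 := (mul_one _).symm
        _ ≤ _ := mul_le_mul_of_nonneg_left h1 (abs_nonneg _)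
    push_cast
    calc _ ≤ (Real.log (Sp q (N + (s + 1) * K) ε₀) +
          L * Sm (fun n => (k q n : ℝ)) (N + (s + 1) * K) + C') +
          s * L * Sm (fun n => (k q n : ℝ)) (N + (s + 1) * K) + C * ((N : ℝ) + 1) ^ (s + 1) := by
          linarith
      _ ≤ _ := by
          linarith

end Pool.Agent.Q190.TY.GRO
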