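import Pool.Agent.Q6.TY.Stm

/-!
# Project TY, job TY-KRULL: the principal ideal theorem for chains
-/

set_option autoImplicit false

namespace Pool.Agent.Q190.TY

open MvPolynomial Pool.Agent.Q6.TY

theorem comap_strict {R S : Type} [CommRing R] [CommRing S] (g : R →+* S) (hg : Function.Surjective g) :
    StrictMono (fun x : PrimeSpectrum S => PrimeSpectrum.comap g x) := by
  intro x y hxy
  have hxy' : x.asIdeal < y.asIdeal := hxy
  show (x.asIdeal.comap g) < (y.asIdeal.comap g)
  refine lt_of_le_of_ne (Ideal.comap_mono hxy'.le) fun h => ?_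
  exact hxy'.ne (Ideal.comap_injective_of_surjective g hg h)

theorem comap_map {R : Type} [CommRing R] {Q m : Ideal R} (h : Q ≤ m) :
    (m.map (Ideal.Quotient.mk Q)).comap (Ideal.Quotient.mk Q) = m := by
  rw [Ideal.comap_map_of_surjective _ Ideal.Quotient.mk_surjective]
  apply le_antisymm
  · refine sup_le le_rfl ?_
    intro x hx
    have : Ideal.Quotient.mk Q x = 0 := by simpa using hx
    exact h (Ideal.Quotient.eq_zero_iff_mem.1 this)
  · exact le_sup_left

theorem map_prime {R : Type} [CommRing R] {Q m : Ideal R} (hm : m.IsPrime) (h : Q ≤ m) :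
    (m.map (Ideal.Quotient.mk Q)).IsPrime :=
  Ideal.map_isPrime_of_surjective Ideal.Quotient.mk_surjective (by rw [Ideal.mk_ker]; exact h)

/-- from the height to a chain -/
theorem chain_of {R : Type} [CommRing R] {Q m : Ideal R} (hm : m.IsPrime) (h : Q ≤ m) {k : ℕ}
    (hk : (k : ℕ∞) ≤ (m.map (Ideal.Quotient.mk Q)).height) :
    ∃ l : LTSeries (PrimeSpectrum R), l.last.asIdeal = m ∧ Q ≤ l.head.asIdeal ∧ l.length = k := by
  have hp := map_prime hm h
  let x : PrimeSpectrum (R ⧸ Q) := ⟨m.map (Ideal.Quotient.mk Q), hp⟩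
  have hx : (m.map (Ideal.Quotient.mk Q)).height = Order.height x := PrimeSpectrum.height_eq_orderHeight x
  rw [hx] at hk
  obtain ⟨l, hl, hlen⟩ := Order.exists_series_of_le_height x hk
  refine ⟨l.map _ (comap_strict (Ideal.Quotient.mk Q) Ideal.Quotient.mk_surjective), ?_, ?_, ?_⟩
  · rw [LTSeries.last_map, hl]
    exact comap_map h
  · rw [LTSeries.head_map]
    intro y hy
    show Ideal.Quotient.mk Q y ∈ l.head.asIdeal
    rw [Ideal.Quotient.eq_zero_iff_mem.2 hy]
    exact zero_mem _
  · exact hlen

/-- from a chain to the height -/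
theorem of_chain {R : Type} [CommRing R] (l : LTSeries (PrimeSpectrum R)) :
    (l.length : ℕ∞) ≤ (l.last.asIdeal.map (Ideal.Quotient.mk l.head.asIdeal)).height := by
  have hle : ∀ i, l.head.asIdeal ≤ (l i).asIdeal := fun i => (LTSeries.head_le l i : l.head ≤ l i)
  have hle' : l.head.asIdeal ≤ l.last.asIdeal := (LTSeries.head_le_last l : l.head ≤ l.last)
  let Q := l.head.asIdeal
  let l' : LTSeries (PrimeSpectrum (R ⧸ Q)) :=
    { length := l.length
      toFun := fun i => ⟨(l i).asIdeal.map (Ideal.Quotient.mk Q), map_prime (l i).2 (hle i)⟩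
      step := fun i => by
        have h1 := l.step i
        have h2 : (l i.castSucc).asIdeal < (l i.succ).asIdeal := h1
        show (l i.castSucc).asIdeal.map (Ideal.Quotient.mk Q) < (l i.succ).asIdeal.map (Ideal.Quotient.mk Q)
        refine lt_of_le_of_ne (Ideal.map_mono h2.le) fun h => ?_
        apply h2.ne
        have h3 := congrArg (Ideal.comap (Ideal.Quotient.mk Q)) h
        rwa [comap_map (hle _), comap_map (hle _)] at h3 }
  have h1 := Order.length_le_height_last (p := l')
  have hp := map_prime l.last.2 hle'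
  have h2 : Order.height l'.last = (l.last.asIdeal.map (Ideal.Quotient.mk l.head.asIdeal)).height :=
    (PrimeSpectrum.height_eq_orderHeight l'.last).symm
  rw [h2] at h1
  exact h1

theorem task_KRULL : Pool.Agent.Q6.TY.S_KRULL := by
  intro R _ _ p m hp hm hpm f hf
  have hmB : (m.map (Ideal.Quotient.mk p)).IsPrime := map_prime hm hpm
  have hg : Ideal.Quotient.mk p f ∈ m.map (Ideal.Quotient.mk p) := Ideal.mem_map_of_mem _ hf
  have h1 := Ideal.height_le_height_add_one_of_mem hg
  have hle : Ideal.span {Ideal.Quotient.mk p f} ≤ m.map (Ideal.Quotient.mk p) := by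
    rw [Ideal.span_singleton_le_iff_mem]
    exact hg
  have hC := map_prime hmB hle
  obtain ⟨k, hk⟩ := ENat.ne_top_iff_exists.1 (Ideal.height_ne_top_of_isPrime
    (I := (m.map (Ideal.Quotient.mk p)).map (Ideal.Quotient.mk (Ideal.span {Ideal.Quotient.mk p f}))))
  obtain ⟨l, hl1, hl2, hl3⟩ := chain_of hmB hle hk.le
  let l' := l.map _ (comap_strict (Ideal.Quotient.mk p) Ideal.Quotient.mk_surjective)
  have e1 : l'.last.asIdeal = m := by
    have e0 : l'.last = PrimeSpectrum.comap (Ideal.Quotient.mk p) l.last := LTSeries.last_map ..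
    rw [e0]
    show l.last.asIdeal.comap (Ideal.Quotient.mk p) = m
    rw [hl1, comap_map hpm]
  have e2 : l'.head.asIdeal = l.head.asIdeal.comap (Ideal.Quotient.mk p) := by
    have e0 : l'.head = PrimeSpectrum.comap (Ideal.Quotient.mk p) l.head := LTSeries.head_map ..
    rw [e0]
    rfl
  have e3 : l'.length = k := hl3
  refine ⟨l'.head.asIdeal, l'.head.2, ?_, ?_, ?_, ?_⟩
  · intro y hy
    rw [e2]
    show Ideal.Quotient.mk p y ∈ l.head.asIdeal
    rw [Ideal.Quotient.eq_zero_iff_mem.2 hy]
    exact zero_mem _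
  · rw [e2]
    exact hl2 (Ideal.mem_span_singleton_self _)
  · rw [← e1]
    exact (LTSeries.head_le_last l' : l'.head ≤ l'.last)
  · have h3 := of_chain l'
    rw [e1, e3] at h3
    rw [← hk] at h1
    exact h1.trans (by gcongr)

end Pool.Agent.Q190.TY
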