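import Pool.Agent.Q6.TY.Stm

/-!
# Project TY, job TY-LIM: a limit of real sequences
-/

set_option autoImplicit false

namespace Pool.Agent.Q190.TY

open Filter Topology

theorem ratio_one (j : ℕ) : Tendsto (fun N : ℕ => ((N + j : ℕ) : ℝ) / N) atTop (𝓝 1) := by
  have h1 : Tendsto (fun N : ℕ => (1 : ℝ) + (j : ℝ) / N) atTop (𝓝 (1 + 0)) :=
    tendsto_const_nhds.add (tendsto_const_div_atTop_nhds_zero_nat (j : ℝ))
  rw [add_zero] at h1
  refine h1.congr' ?_
  filter_upwards [eventually_gt_atTop 0] with N hN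
  have : (0 : ℝ) < N := by exact_mod_cast hN
  push_cast
  field_simp

/-- the product formula of the binomial coefficients -/
theorem choose_eq (n k : ℕ) (h : k ≤ n) :
    ((n.choose k : ℕ) : ℝ) = (∏ i ∈ Finset.range k, ((n : ℝ) - i)) / (k.factorial : ℝ) := by
  rw [eq_div_iff (by exact_mod_cast k.factorial_ne_zero)]
  have h1 : n.descFactorial k = k.factorial * n.choose k := Nat.descFactorial_eq_factorial_mul_choose n k
  have h2 : ((n.descFactorial k : ℕ) : ℝ) = ∏ i ∈ Finset.range k, ((n : ℝ) - i) := by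
    rw [Nat.descFactorial_eq_prod_range]
    push_cast
    refine Finset.prod_congr rfl fun i hi => ?_
    rw [Nat.cast_sub]
    have := Finset.mem_range.1 hi
    omega
  rw [← h2, h1]
  push_cast
  ring

theorem choose_lim (j k : ℕ) :
    Tendsto (fun N : ℕ => (((N + j).choose k : ℕ) : ℝ) / (N : ℝ) ^ k) atTop (𝓝 (1 / (k.factorial : ℝ))) := by
  have h1 : Tendsto (fun N : ℕ => (∏ i ∈ Finset.range k, ((((N + j : ℕ) : ℝ) - i) / N)) / (k.factorial : ℝ))
      atTop (𝓝 ((∏ i ∈ Finset.range k, (1 : ℝ)) / (k.factorial : ℝ))) := by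
    refine Tendsto.div_const ?_ _
    refine tendsto_finsetProd _ fun i _ => ?_
    have h2 : Tendsto (fun N : ℕ => ((N + j : ℕ) : ℝ) / N - (i : ℝ) / N) atTop (𝓝 (1 - 0)) :=
      (ratio_one j).sub (tendsto_const_div_atTop_nhds_zero_nat (i : ℝ))
    rw [sub_zero] at h2
    refine h2.congr fun N => ?_
    rw [sub_div]
  rw [Finset.prod_const_one] at h1
  refine h1.congr' ?_
  filter_upwards [eventually_ge_atTop k] with N hN
  rw [choose_eq (N + j) k (by omega), Finset.prod_div_distrib, Finset.prod_const, Finset.card_range]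
  ring

theorem log_div (j : ℕ) : Tendsto (fun N : ℕ => Real.log ((N : ℝ) + j) / N) atTop (𝓝 0) := by
  have h0 : Tendsto (fun x : ℝ => Real.log x / x) atTop (𝓝 0) := by
    have := Real.isLittleO_log_id_atTop
    exact this.tendsto_div_nhds_zero
  have h1 : Tendsto (fun N : ℕ => ((N + j : ℕ) : ℝ)) atTop atTop :=
    tendsto_natCast_atTop_atTop.comp (tendsto_add_atTop_nat j)
  have h2 := (h0.comp h1).mul (ratio_one j)
  rw [zero_mul] at h2
  refine h2.congr' ?_
  filter_upwards [eventually_gt_atTop 0] with N hN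
  have hN' : (0 : ℝ) < N := by exact_mod_cast hN
  have hNj : (0 : ℝ) < (N : ℝ) + j := by positivity
  simp only [Function.comp_apply]
  push_cast
  field_simp

theorem task_LIM : Pool.Agent.Q6.TY.S_LIM := by
  intro t a s T c h
  have hstep : ∀ K : ℕ, 1 ≤ K → T ≤ (s * (Real.log (1 + 2 * 3 ^ K) / K) + c) * 2 ^ a := by
    intro K hK
    obtain ⟨C, M, hN⟩ := h K hK
    set D : ℝ := (s * (Real.log (1 + 2 * 3 ^ K) / K) + c) * 2 ^ a with hD
    have l1 : Tendsto (fun N : ℕ => T * ((((N + t).choose (t + 1) : ℕ) : ℝ) / (N : ℝ) ^ (t + 1))) atTop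
        (𝓝 (T * (1 / ((t + 1).factorial : ℝ)))) := (choose_lim t (t + 1)).const_mul T
    have l2 : Tendsto (fun N : ℕ => D * ((((N + (M + t + 1)).choose (t + 1) : ℕ) : ℝ) / (N : ℝ) ^ (t + 1)) +
        C * ((((N + 1 : ℕ) : ℝ) / N) ^ t * (Real.log ((N : ℝ) + (3 : ℕ)) / N))) atTop
        (𝓝 (D * (1 / ((t + 1).factorial : ℝ)) + C * (1 ^ t * 0))) :=
      ((choose_lim (M + t + 1) (t + 1)).const_mul D).add
        ((((ratio_one 1).pow t).mul (log_div 3)).const_mul C)
    have l3 : T * (1 / ((t + 1).factorial : ℝ)) ≤ D * (1 / ((t + 1).factorial : ℝ)) + C * (1 ^ t * 0) := by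
      refine le_of_tendsto_of_tendsto l1 l2 ?_
      filter_upwards [eventually_gt_atTop 0] with N hN0
      have hN' : (0 : ℝ) < N := by exact_mod_cast hN0
      have hp : (0 : ℝ) < (N : ℝ) ^ (t + 1) := by positivity
      have h1 := hN N
      have e1 : T * ((((N + t).choose (t + 1) : ℕ) : ℝ) / (N : ℝ) ^ (t + 1)) =
          (T * ((N + t).choose (t + 1) : ℝ)) / (N : ℝ) ^ (t + 1) := by ring
      have e2 : D * ((((N + (M + t + 1)).choose (t + 1) : ℕ) : ℝ) / (N : ℝ) ^ (t + 1)) +
          C * ((((N + 1 : ℕ) : ℝ) / N) ^ t * (Real.log ((N : ℝ) + (3 : ℕ)) / N)) =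
          (D * ((N + M + t + 1).choose (t + 1) : ℝ) + C * ((N : ℝ) + 1) ^ t * Real.log ((N : ℝ) + 3)) /
            (N : ℝ) ^ (t + 1) := by
        have e3 : N + (M + t + 1) = N + M + t + 1 := by ring
        rw [e3, div_pow]
        push_cast
        field_simp
        ring
      rw [e1, e2]
      exact div_le_div_of_nonneg_right h1 hp.le
    have hf : (0 : ℝ) < ((t + 1).factorial : ℝ) := by exact_mod_cast Nat.factorial_pos _
    rw [mul_zero, mul_zero, add_zero] at l3
    exact le_of_mul_le_mul_right l3 (by positivity)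
  have h3 : 0 < Real.log 3 := Real.log_pos (by norm_num)
  have hub : ∀ K : ℕ, 1 ≤ K → T ≤ (s * ((1 + 1 / (K : ℝ)) * Real.log 3) + c) * 2 ^ a := by
    intro K hK
    have hK0 : (0 : ℝ) < K := by exact_mod_cast hK
    refine (hstep K hK).trans ?_
    have h4 : Real.log (1 + 2 * 3 ^ K) / K ≤ (1 + 1 / (K : ℝ)) * Real.log 3 := by
      rw [div_le_iff₀ hK0]
      have h5 : (1 : ℝ) + 2 * 3 ^ K ≤ 3 ^ (K + 1) := by
        have : (1 : ℝ) ≤ 3 ^ K := one_le_pow₀ (by norm_num)
        rw [pow_succ]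
        linarith
      have h6 := Real.log_le_log (by positivity) h5
      rw [Real.log_pow] at h6
      refine h6.trans (le_of_eq ?_)
      push_cast
      field_simp
    gcongr
  have hlim : Tendsto (fun K : ℕ => ((s : ℝ) * ((1 + 1 / (K : ℝ)) * Real.log 3) + c) * 2 ^ a) atTop
      (𝓝 (((s : ℝ) * ((1 + 0) * Real.log 3) + c) * 2 ^ a)) := by
    have h4 : Tendsto (fun K : ℕ => 1 / (K : ℝ)) atTop (𝓝 0) := tendsto_const_div_atTop_nhds_zero_nat 1
    exact ((((tendsto_const_nhds.add h4).mul_const _).const_mul _).add_const _).mul_const _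
  rw [add_zero, one_mul] at hlim
  refine ge_of_tendsto hlim ?_
  filter_upwards [eventually_ge_atTop 1] with K hK
  exact hub K hK

end Pool.Agent.Q190.TY
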