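import Pool.Agent.Q6.TY.Stm

/-!
# Project TY, job TY-MAIN: the main inequality for separated characters
-/

set_option autoImplicit false

namespace Pool.Agent.Q190.TY

open MvPolynomial Pool.Agent.Q6.TY

/-- a character which is large at `f x^u` is large at some `x^(u+v)` -/
theorem large_of {t : ℕ} {f : P t} (hf : IsLin f) (hf0 : f ≠ 0) (χ : P t →+ UnitAddCircle) {ε : ℝ}
    (hε : 0 < ε) {m : ℕ} {u : Fin t →₀ ℕ} (hu : u.degree ≤ m) (h : 3 * ε ≤ ‖χ (f * monomial u 1)‖) :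
    ∃ w : Fin t →₀ ℕ, w.degree ≤ m + 1 ∧ ε ≤ ‖χ (monomial w 1)‖ := by
  by_contra hcon
  push Not at hcon
  have e : f * monomial u 1 = ∑ v ∈ f.support, (coeff v f) • (monomial (v + u) (1 : ℤ) : P t) := by
    conv_lhs => rw [f.as_sum, Finset.sum_mul]
    refine Finset.sum_congr rfl fun v _ => ?_
    rw [monomial_mul, mul_one, smul_monomial]
    simp
  rw [e, map_sum] at h
  have h1 : ‖∑ v ∈ f.support, χ ((coeff v f) • (monomial (v + u) (1 : ℤ) : P t))‖ <
      ∑ v ∈ f.support, |((coeff v f : ℤ) : ℝ)| * ε := by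
    refine (norm_sum_le _ _).trans_lt ?_
    refine Finset.sum_lt_sum_of_nonempty ?_ fun v hv => ?_
    · obtain ⟨v, hv⟩ := ne_zero_iff.1 hf0
      exact ⟨v, mem_support_iff.2 hv⟩
    · have hv1 : v.degree ≤ 1 := (le_totalDegree hv).trans hf.1
      have hd : (v + u).degree ≤ m + 1 := by
        rw [map_add]
        omega
      have h2 := hcon (v + u) hd
      have h3 : 0 < |((coeff v f : ℤ) : ℝ)| := by
        rw [abs_pos]
        exact_mod_cast mem_support_iff.1 hv
      rw [map_zsmul]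
      calc ‖coeff v f • χ (monomial (v + u) 1)‖ ≤ ‖coeff v f‖ * ‖χ (monomial (v + u) 1)‖ := norm_zsmul_le _ _
        _ = |((coeff v f : ℤ) : ℝ)| * ‖χ (monomial (v + u) 1)‖ := by rw [Int.norm_eq_abs]
        _ < |((coeff v f : ℤ) : ℝ)| * ε := mul_lt_mul_of_pos_left h2 h3
  have h2 : ∑ v ∈ f.support, |((coeff v f : ℤ) : ℝ)| * ε ≤ 3 * ε := by
    rw [← Finset.sum_mul]
    refine mul_le_mul_of_nonneg_right ?_ hε.le
    have h3 : ((nrm f : ℤ) : ℝ) ≤ 3 := by exact_mod_cast hf.2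
    refine le_trans (le_of_eq ?_) h3
    unfold nrm
    push_cast
    rfl
  linarith

theorem task_MAIN : Pool.Agent.Q6.TY.S_SURJ → Pool.Agent.Q6.TY.S_MAIN := by
  classical
  intro hS t q q' f hq hqq' hlin hfq hfq' m ε hε N N' hN hN'
  obtain ⟨A, hA, hAk, hAa⟩ := hN
  obtain ⟨B, hB, hBk, hBa⟩ := hN'
  have hf0 : f ≠ 0 := by
    rintro rfl
    exact hfq (zero_mem q)
  have hex : ∀ b : P t →+ UnitAddCircle, ∃ b' : P t →+ UnitAddCircle,
      b ∈ B → (∀ g ∈ q, b' g = 0) ∧ ∀ h, b' (f * h) = b h := by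
    intro b
    by_cases hb : b ∈ B
    · obtain ⟨b', h1, h2⟩ := hS t q hq f hfq b (hBk b hb)
      exact ⟨b', fun _ => ⟨h1, h2⟩⟩
    · exact ⟨0, fun h => absurd h hb⟩
  choose pr hpr using hex
  have key : ∀ x ∈ A ×ˢ B, ∀ y ∈ A ×ˢ B, x ≠ y → Apart (m + 1) ε (x.1 + pr x.2) (y.1 + pr y.2) := by
    rintro ⟨a, b⟩ hx ⟨c, d⟩ hy hne
    rw [Finset.mem_product] at hx hy
    obtain ⟨ha, hb⟩ := hx
    obtain ⟨hc, hd⟩ := hy
    simp only at ha hb hc hd ⊢
    by_cases hbd : b = d
    · subst hbd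
      have hac : a ≠ c := by
        rintro rfl
        exact hne rfl
      obtain ⟨u, hu, h⟩ := hAa a ha c hc hac
      refine ⟨u, hu, ?_⟩
      have e : (a + pr b) (monomial u 1) - (c + pr b) (monomial u 1) = a (monomial u 1) - c (monomial u 1) := by
        simp only [AddMonoidHom.add_apply]
        abel
      rw [e]
      exact h
    · obtain ⟨u, hu, h⟩ := hBa b hb d hd hbd
      set χ : P t →+ UnitAddCircle := (a + pr b) - (c + pr d) with hχ
      have hfu : f * monomial u 1 ∈ q' := q'.mul_mem_right _ hfq'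
      have e : χ (f * monomial u 1) = b (monomial u 1) - d (monomial u 1) := by
        rw [hχ]
        simp only [AddMonoidHom.sub_apply, AddMonoidHom.add_apply]
        rw [hAk a ha _ hfu, hAk c hc _ hfu, (hpr b hb).2, (hpr d hd).2]
        abel
      obtain ⟨w, hw, hw2⟩ := large_of hlin hf0 χ hε hu (by rw [e]; exact h)
      refine ⟨w, hw, ?_⟩
      have e2 : (a + pr b) (monomial w 1) - (c + pr d) (monomial w 1) = χ (monomial w 1) := rfl
      rw [e2]
      exact hw2
  have hinj : Set.InjOn (fun x : (P t →+ UnitAddCircle) × (P t →+ UnitAddCircle) => x.1 + pr x.2)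
      (A ×ˢ B : Finset _) := by
    intro x hx y hy h
    by_contra hne
    obtain ⟨u, -, h1⟩ := key x hx y hy hne
    simp only at h
    rw [h, sub_self, norm_zero] at h1
    linarith
  refine ⟨(A ×ˢ B).image (fun x => x.1 + pr x.2), ?_, ?_, ?_⟩
  · rw [Finset.card_image_of_injOn hinj, Finset.card_product, hA, hB]
  · intro φ hφ g hg
    obtain ⟨x, hx, rfl⟩ := Finset.mem_image.1 hφ
    rw [Finset.mem_product] at hx
    simp only [AddMonoidHom.add_apply]
    rw [hAk x.1 hx.1 g (hqq' hg), (hpr x.2 hx.2).1 g hg, add_zero]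
  · intro φ hφ ψ hψ hne
    obtain ⟨x, hx, rfl⟩ := Finset.mem_image.1 hφ
    obtain ⟨y, hy, rfl⟩ := Finset.mem_image.1 hψ
    exact key x hx y hy (fun h => hne (by rw [h]))

end Pool.Agent.Q190.TY
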