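import Pool.Agent.Q6.TY.Stm

/-!
# Project TY, job TY-SURJ: extension of characters along multiplication
-/

set_option autoImplicit false

namespace Pool.Agent.Q190.TY

open MvPolynomial Pool.Agent.Q6.TY

theorem task_SURJ : Pool.Agent.Q6.TY.S_SURJ := by
  intro t q hq f hf ψ hψ
  have := hq
  have key : ∀ g h : P t, Ideal.Quotient.mk q g = Ideal.Quotient.mk q h → ψ g = ψ h := by
    intro g h hgh
    have h1 := hψ (g - h) (Ideal.Quotient.eq.1 hgh)
    rw [map_sub, sub_eq_zero] at h1
    exact h1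
  let s : P t ⧸ q → P t := Function.surjInv Ideal.Quotient.mk_surjective
  have hs : ∀ b, Ideal.Quotient.mk q (s b) = b := Function.surjInv_eq Ideal.Quotient.mk_surjective
  let ψ' : (P t ⧸ q) →+ UnitAddCircle := AddMonoidHom.mk' (fun b => ψ (s b)) (fun b c => by
    rw [← map_add]
    apply key
    rw [map_add, hs, hs, hs])
  have hψ' : ∀ g, ψ' (Ideal.Quotient.mk q g) = ψ g := fun g => key _ _ (hs _)
  let m : (P t ⧸ q) →+ (P t ⧸ q) := AddMonoidHom.mulLeft (Ideal.Quotient.mk q f)
  have hm : Function.Injective m := by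
    intro b c hbc
    have h1 : Ideal.Quotient.mk q f ≠ 0 := fun h => hf (Ideal.Quotient.eq_zero_iff_mem.1 h)
    exact mul_left_cancel₀ h1 hbc
  obtain ⟨φ', h⟩ := (Module.Baer.of_divisible UnitAddCircle).extension_property_addMonoidHom m hm ψ'
  refine ⟨φ'.comp (Ideal.Quotient.mk q).toAddMonoidHom, ?_, ?_⟩
  · intro g hg
    show φ' (Ideal.Quotient.mk q g) = 0
    rw [Ideal.Quotient.eq_zero_iff_mem.2 hg, map_zero]
  · intro g
    show φ' (Ideal.Quotient.mk q (f * g)) = ψ g
    rw [map_mul, ← hψ' g, ← h]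
    rfl

end Pool.Agent.Q190.TY
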