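import Pool.Agent.Q6.TY.Stm

/-!
# Project TY, job TY-TORD: iterated sums of the ranks
-/

set_option autoImplicit false

namespace Pool.Agent.Q190.TY.TORD

open MvPolynomial Pool.Agent.Q6.TY

theorem Sm_mono {F G : ℕ → ℝ} (h : ∀ n, F n ≤ G n) (N : ℕ) : Sm F N ≤ Sm G N :=
  Finset.sum_le_sum fun n _ => h n

theorem Sm_iter_mono (a : ℕ) : ∀ {F G : ℕ → ℝ} (_ : ∀ n, F n ≤ G n) (N : ℕ),
    (Sm^[a] F) N ≤ (Sm^[a] G) N := by
  induction a with
  | zero => intro F G h N; exact h N
  | succ a ih =>
    intro F G h N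
    rw [Function.iterate_succ_apply, Function.iterate_succ_apply]
    exact ih (Sm_mono h) N

theorem Sm_smul (c : ℝ) (F : ℕ → ℝ) : Sm (fun n => c * F n) = fun n => c * Sm F n := by
  funext N
  unfold Sm
  rw [Finset.mul_sum]

theorem Sm_iter_smul (a : ℕ) (c : ℝ) : ∀ F : ℕ → ℝ,
    (Sm^[a] (fun n => c * F n)) = fun n => c * (Sm^[a] F) n := by
  induction a with
  | zero => intro F; rfl
  | succ a ih =>
    intro F
    rw [Function.iterate_succ_apply, Sm_smul, ih]
    rfl

/-- one step -/
theorem Sm_step (k k' : ℕ → ℕ) (h0 : k' 0 ≤ k 0) (h1 : k' 1 ≤ k 1)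
    (h2 : ∀ m, k' (m + 2) + k m ≤ k (m + 2)) (hm : ∀ m, k m ≤ k (m + 1)) (M : ℕ) :
    Sm (fun n => (k' n : ℝ)) M ≤ 2 * (k M : ℝ) := by
  have key : ∀ M, ∑ n ∈ Finset.range (M + 2), k' n ≤ k (M + 1) + k M := by
    intro M
    induction M with
    | zero =>
      rw [Finset.sum_range_succ, Finset.sum_range_succ, Finset.sum_range_zero]
      have e : (0 : ℕ) + 1 = 1 := rfl
      rw [e]
      omega
    | succ M ih =>
      rw [Finset.sum_range_succ]
      have := h2 M
      have e : M + 1 + 1 = M + 2 := rfl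
      rw [e]
      omega
  have key2 : ∑ n ∈ Finset.range (M + 1), k' n ≤ 2 * k M := by
    cases M with
    | zero =>
      rw [Finset.sum_range_succ, Finset.sum_range_zero]
      omega
    | succ M =>
      have h3 := key M
      have h4 := hm M
      have e : M + 1 + 1 = M + 2 := rfl
      rw [e]
      omega
  have key3 : ((∑ n ∈ Finset.range (M + 1), k' n : ℕ) : ℝ) ≤ ((2 * k M : ℕ) : ℝ) := by
    exact_mod_cast key2
  rw [Nat.cast_sum, Nat.cast_mul] at key3
  exact key3

theorem task_TORD : Pool.Agent.Q6.TY.S_DIM → Pool.Agent.Q6.TY.S_TORP → Pool.Agent.Q6.TY.S_TORD := by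
  intro hD hT t p F hp hF N
  obtain ⟨hD1, hD2, hD3, hD4, -⟩ := hD
  obtain ⟨hT1, -, hT3, -, hT5, hT6, hT7, -⟩ := hT t p hp
  have main : ∀ b : Finset (Fin t → ℚ), (∀ w ∈ b, ∃ f ∈ F, IsBin f w) →
      LinearIndepOn ℚ id (b : Set (Fin t → ℚ)) →
      (Sm^[b.card] (fun n => (k (tor p (Submodule.span ℚ (b : Set (Fin t → ℚ)))) n : ℝ))) N ≤
        2 ^ b.card * ((N + t).choose t : ℝ) := by
    classical
    intro b
    induction b using Finset.induction_on with
    | empty =>
      intro _ _
      rw [Finset.coe_empty, Submodule.span_empty, hT3, Finset.card_empty, pow_zero, one_mul]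
      have := hD2 t N
      show ((k (⊥ : Ideal (P t)) N : ℕ) : ℝ) ≤ _
      exact_mod_cast this
    | insert w b hwb ih =>
      intro hb hli
      rw [Finset.coe_insert, linearIndepOn_id_insert (by exact_mod_cast hwb)] at hli
      obtain ⟨hli, hw⟩ := hli
      have ih' := ih (fun w' h => hb w' (Finset.mem_insert_of_mem h)) hli
      rw [Finset.card_insert_of_notMem hwb, Function.iterate_succ_apply]
      obtain ⟨f, hf, u, v, σ, hσ, hu, hv, hfe, hwe⟩ := hb w (Finset.mem_insert_self _ _)
      set V := Submodule.span ℚ (b : Set (Fin t → ℚ)) with hV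
      set V' := Submodule.span ℚ ((insert w b : Finset (Fin t → ℚ)) : Set (Fin t → ℚ)) with hV'
      have hVV : V ≤ V' := Submodule.span_mono (by
        rw [Finset.coe_insert]
        exact Set.subset_insert _ _)
      have hwV' : w ∈ V' := Submodule.subset_span (by
        rw [Finset.coe_insert]
        exact Set.mem_insert _ _)
      have hf1 : f ∈ tor p V' := by
        rw [hfe]
        apply hT6
        · rw [← hwe]; exact hwV'
        · rw [← hfe]; exact hF f hf
      have hf2 : f ∉ tor p V := by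
        rw [hfe]
        apply hT7
        rw [← hwe]
        exact hw
      have hdeg : f.totalDegree ≤ 2 := by
        rw [hfe]
        refine (totalDegree_sub _ _).trans (max_le ?_ ?_)
        · refine (totalDegree_monomial_le _ _).trans ?_
          exact hu
        · refine (totalDegree_monomial_le _ _).trans ?_
          exact hv
      have h2 := hD1 t (tor p V) (tor p V') f 2 (hT1 V) (hT5 V V' hVV) hdeg hf2 hf1
      have hs := Sm_step (k (tor p V)) (k (tor p V'))
        (hD4 t _ _ 0 (hT5 V V' hVV)) (hD4 t _ _ 1 (hT5 V V' hVV)) h2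
        (fun m => hD3 t _ m (m + 1) (Nat.le_succ m))
      refine (Sm_iter_mono b.card hs N).trans ?_
      rw [Sm_iter_smul]
      calc 2 * (Sm^[b.card] fun n => ((k (tor p V) n : ℕ) : ℝ)) N
          ≤ 2 * (2 ^ b.card * ((N + t).choose t : ℝ)) := by
            apply mul_le_mul_of_nonneg_left _ (by norm_num)
            exact ih'
        _ = 2 ^ (b.card + 1) * ((N + t).choose t : ℝ) := by ring
  obtain ⟨b, hb1, hb2, hb3⟩ := exists_linearIndependent ℚ {w : Fin t → ℚ | ∃ f ∈ F, IsBin f w}
  have hfin : b.Finite := by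
    have : LinearIndependent ℚ ((↑) : b → (Fin t → ℚ)) := hb3
    exact this.setFinite
  have hb4 : LinearIndepOn ℚ id (hfin.toFinset : Set (Fin t → ℚ)) := by
    rw [hfin.coe_toFinset]
    exact hb3
  have h1 := main hfin.toFinset (fun w hw => hb1 (hfin.mem_toFinset.1 hw)) hb4
  have h2 : Submodule.span ℚ (hfin.toFinset : Set (Fin t → ℚ)) = Vsp F := by
    rw [hfin.coe_toFinset, hb2]
    rfl
  have h3 : Module.finrank ℚ (Vsp F) = hfin.toFinset.card := by
    rw [← h2]
    exact finrank_span_finset_eq_card hb4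
  rw [h2] at h1
  rw [h3]
  exact h1

end Pool.Agent.Q190.TY.TORD
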